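import Pool.Agent.H972R4.Fano.LogQuad

/-!
# The spectral bound
-/

set_option autoImplicit false

open Matrix Finset

namespace Pool.Agent.H972R4.Fano

variable {ι : Type*} [Fintype ι] [DecidableEq ι]

theorem trace_sq_eq {M : Matrix ι ι ℝ} (hM : M.IsHermitian) :
    (M * M).trace = ∑ i, hM.eigenvalues i ^ 2 := by
  have h := hM.spectral_theorem
  set U := hM.eigenvectorUnitary with hU
  set D : Matrix ι ι ℝ := diagonal (RCLike.ofReal ∘ hM.eigenvalues) with hD
  have h1 : M * M = Unitary.conjStarAlgAut ℝ _ U (D * D) := by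
    rw [map_mul, ← h]
  rw [h1, Unitary.conjStarAlgAut_apply, Matrix.trace_mul_comm, ← mul_assoc,
    Unitary.coe_star_mul_self, one_mul, hD, diagonal_mul_diagonal, trace_diagonal]
  refine Finset.sum_congr rfl fun i _ => ?_
  simp [pow_two]

theorem eig_le_one {M : Matrix ι ι ℝ} (hM : M.IsHermitian)
    (h1 : ∀ x : ι → ℝ, x ⬝ᵥ (M *ᵥ x) ≤ x ⬝ᵥ x) (i : ι) : hM.eigenvalues i ≤ 1 := by
  set v : ι → ℝ := ⇑(hM.eigenvectorBasis i) with hv
  have h2 := h1 v
  have h3 : M *ᵥ v = hM.eigenvalues i • v := hM.mulVec_eigenvectorBasis i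
  rw [h3, dotProduct_smul, smul_eq_mul] at h2
  have hvne : v ≠ 0 := by
    intro h0
    have := hM.eigenvectorBasis.orthonormal.ne_zero i
    apply this
    ext j
    have := congrFun h0 j
    simpa [hv] using this
  have hpos : 0 < v ⬝ᵥ v := by
    have hne : v ⬝ᵥ v ≠ 0 := by
      intro h0
      exact hvne (dotProduct_self_eq_zero.mp h0)
    have hnn : 0 ≤ v ⬝ᵥ v := by
      unfold dotProduct
      exact Finset.sum_nonneg fun j _ => mul_self_nonneg _
    exact lt_of_le_of_ne hnn (Ne.symm hne)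
  by_contra hcon
  push Not at hcon
  nlinarith

/-- log-determinant bound for a positive semidefinite matrix with eigenvalues at most one -/
theorem log_det_le {M : Matrix ι ι ℝ} (hM : M.PosSemidef)
    (h1 : ∀ x : ι → ℝ, x ⬝ᵥ (M *ᵥ x) ≤ x ⬝ᵥ x) (hdet : 0 < M.det) :
    Real.log M.det ≤ (-w - 1 - 4 * g / 81) * (Fintype.card ι : ℝ)
      + (9 / 2 + 4 * g / 9) * M.trace - g * (M * M).trace := by
  have hH := hM.isHermitian
  have hdet' : M.det = ∏ i, hH.eigenvalues i := by
    have := hH.det_eq_prod_eigenvalues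
    simpa using this
  have hpos : ∀ i, 0 < hH.eigenvalues i := by
    intro i
    refine lt_of_le_of_ne (hM.eigenvalues_nonneg i) ?_
    intro h0
    have : ∏ i, hH.eigenvalues i = 0 := Finset.prod_eq_zero (Finset.mem_univ i) h0.symm
    rw [hdet', this] at hdet
    exact lt_irrefl _ hdet
  have htr : M.trace = ∑ i, hH.eigenvalues i := by
    have := hH.trace_eq_sum_eigenvalues
    simpa using this
  rw [hdet', Real.log_prod (fun i _ => (hpos i).ne'), htr, trace_sq_eq hH]
  have h2 : ∀ i, Real.log (hH.eigenvalues i) ≤ (-w - 1 - 4 * g / 81)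
      + (9 / 2 + 4 * g / 9) * hH.eigenvalues i - g * hH.eigenvalues i ^ 2 := by
    intro i
    have := log_le_quad (hpos i) (eig_le_one hH h1 i)
    refine this.trans (le_of_eq ?_)
    ring
  calc ∑ i, Real.log (hH.eigenvalues i) ≤ ∑ i, ((-w - 1 - 4 * g / 81)
      + (9 / 2 + 4 * g / 9) * hH.eigenvalues i - g * hH.eigenvalues i ^ 2) :=
        Finset.sum_le_sum fun i _ => h2 i
    _ = _ := by
        rw [Finset.sum_sub_distrib, Finset.sum_add_distrib, ← Finset.mul_sum, ← Finset.mul_sum,
          Finset.sum_const, Finset.card_univ, nsmul_eq_mul]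
        ring

end Pool.Agent.H972R4.Fano
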