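import Pool.Agent.H972R4.Fano.EdgeIneq
import Pool.Agent.H972R4.Fano.Spec

/-!
# The bound for matrices all of whose rows and columns have at least two ones
-/

set_option autoImplicit false
set_option linter.unusedSectionVars false

open Matrix Finset

namespace Pool.Agent.H972R4.Fano

variable {ι : Type*} [Fintype ι] [DecidableEq ι]

section
variable (a : Matrix ι ι ℝ) (R C : ι → ℕ)

/-- normalised matrix -/
noncomputable def NN : Matrix ι ι ℝ := fun i j => a i j / (√(R i : ℝ) * √(C j : ℝ))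

/-- weights -/
noncomputable def xx (i j : ι) : ℝ := a i j / ((R i : ℝ) * (C j : ℝ))

variable {a R C}

theorem NN_sq (ha : ∀ i j, a i j = 0 ∨ a i j = 1) (i j : ι) :
    NN a R C i j ^ 2 = xx a R C i j := by
  unfold NN xx
  rw [div_pow, mul_pow, Real.sq_sqrt (Nat.cast_nonneg _), Real.sq_sqrt (Nat.cast_nonneg _)]
  rcases ha i j with h | h <;> rw [h] <;> norm_num

theorem NN_nonneg (ha : ∀ i j, a i j = 0 ∨ a i j = 1) (i j : ι) : 0 ≤ NN a R C i j := by
  unfold NN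
  have : 0 ≤ a i j := by rcases ha i j with h | h <;> rw [h]; norm_num
  positivity

theorem NN_eq : NN a R C = diagonal (fun i => (√(R i : ℝ))⁻¹) * a * diagonal (fun j => (√(C j : ℝ))⁻¹) := by
  ext i j
  rw [mul_diagonal, diagonal_mul]
  unfold NN
  rw [div_eq_mul_inv, mul_inv]
  ring

theorem det_M (hR2 : ∀ i, 2 ≤ R i) (hC2 : ∀ i, 2 ≤ C i) (hdet : a.det ≠ 0) :
    0 < (NN a R C * (NN a R C)ᵀ).det ∧
    Real.log (NN a R C * (NN a R C)ᵀ).det =
      2 * Real.log |a.det| - ∑ i, Real.log (R i : ℝ) - ∑ j, Real.log (C j : ℝ) := by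
  have hRp : ∀ i, (0 : ℝ) < R i := fun i => by
    have := hR2 i
    exact_mod_cast (by omega : 0 < R i)
  have hCp : ∀ i, (0 : ℝ) < C i := fun i => by
    have := hC2 i
    exact_mod_cast (by omega : 0 < C i)
  have h1 : (NN a R C * (NN a R C)ᵀ).det = ((NN a R C).det) ^ 2 := by
    rw [det_mul, det_transpose, pow_two]
  have h2 : (NN a R C).det = (∏ i, (√(R i : ℝ))⁻¹) * a.det * ∏ j, (√(C j : ℝ))⁻¹ := by
    rw [NN_eq, det_mul, det_mul, det_diagonal, det_diagonal]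
  have hp1 : (0 : ℝ) < ∏ i, (√(R i : ℝ))⁻¹ := Finset.prod_pos fun i _ => by
    have := Real.sqrt_pos.mpr (hRp i); positivity
  have hp2 : (0 : ℝ) < ∏ j, (√(C j : ℝ))⁻¹ := Finset.prod_pos fun i _ => by
    have := Real.sqrt_pos.mpr (hCp i); positivity
  have hne : (NN a R C).det ≠ 0 := by
    rw [h2]
    exact mul_ne_zero (mul_ne_zero hp1.ne' hdet) hp2.ne'
  refine ⟨by rw [h1]; positivity, ?_⟩
  rw [h1, Real.log_pow, ← Real.log_abs, h2, abs_mul, abs_mul, abs_of_pos hp1, abs_of_pos hp2,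
    Real.log_mul (mul_ne_zero hp1.ne' (abs_ne_zero.mpr hdet)) hp2.ne',
    Real.log_mul hp1.ne' (abs_ne_zero.mpr hdet),
    Real.log_prod (fun i _ => (inv_pos.mpr (Real.sqrt_pos.mpr (hRp i))).ne'),
    Real.log_prod (fun i _ => (inv_pos.mpr (Real.sqrt_pos.mpr (hCp i))).ne')]
  have e1 : ∀ i, Real.log ((√(R i : ℝ))⁻¹) = -(1/2) * Real.log (R i : ℝ) := by
    intro i
    rw [Real.log_inv, Real.log_sqrt (hRp i).le]; ring
  have e2 : ∀ i, Real.log ((√(C i : ℝ))⁻¹) = -(1/2) * Real.log (C i : ℝ) := by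
    intro i
    rw [Real.log_inv, Real.log_sqrt (hCp i).le]; ring
  simp_rw [e1, e2, ← Finset.mul_sum]
  push_cast
  ring

theorem M_le_one (ha : ∀ i j, a i j = 0 ∨ a i j = 1) (hR : ∀ i, ∑ j, a i j = R i)
    (hC : ∀ j, ∑ i, a i j = C j) (hR2 : ∀ i, 2 ≤ R i) (hC2 : ∀ i, 2 ≤ C i) (x : ι → ℝ) :
    x ⬝ᵥ ((NN a R C * (NN a R C)ᵀ) *ᵥ x) ≤ x ⬝ᵥ x := by
  have hRp : ∀ i, (0 : ℝ) < R i := fun i => by
    have := hR2 i
    exact_mod_cast (by omega : 0 < R i)
  have hCp : ∀ i, (0 : ℝ) < C i := fun i => by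
    have := hC2 i
    exact_mod_cast (by omega : 0 < C i)
  have h1 : x ⬝ᵥ ((NN a R C * (NN a R C)ᵀ) *ᵥ x) = ∑ c, (∑ i, NN a R C i c * x i) ^ 2 := by
    rw [← mulVec_mulVec, dotProduct_mulVec]
    have : x ᵥ* NN a R C = (NN a R C)ᵀ *ᵥ x := by rw [mulVec_transpose]
    rw [this]
    unfold dotProduct
    refine Finset.sum_congr rfl fun c _ => ?_
    rw [← pow_two]
    congr 1
  have h2 : ∀ c, (∑ i, NN a R C i c * x i) ^ 2 ≤ ∑ i, a i c * x i ^ 2 / (R i : ℝ) := by
    intro c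
    have hcs := Finset.sum_mul_sq_le_sq_mul_sq Finset.univ (fun i => a i c)
      (fun i => NN a R C i c * x i)
    have e1 : ∀ i, a i c * (NN a R C i c * x i) = NN a R C i c * x i := by
      intro i
      unfold NN
      rcases ha i c with h | h <;> rw [h] <;> ring
    have e2 : ∀ i, a i c ^ 2 = a i c := by
      intro i
      rcases ha i c with h | h <;> rw [h] <;> norm_num
    simp_rw [e1, e2, hC c, mul_pow, NN_sq ha] at hcs
    refine hcs.trans (le_of_eq ?_)
    rw [Finset.mul_sum]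
    refine Finset.sum_congr rfl fun i _ => ?_
    unfold xx
    have := (hRp i).ne'
    have := (hCp c).ne'
    field_simp
  rw [h1]
  calc ∑ c, (∑ i, NN a R C i c * x i) ^ 2 ≤ ∑ c, ∑ i, a i c * x i ^ 2 / (R i : ℝ) :=
        Finset.sum_le_sum fun c _ => h2 c
    _ = ∑ i, ∑ c, a i c * x i ^ 2 / (R i : ℝ) := Finset.sum_comm
    _ = ∑ i, x i * x i := by
        refine Finset.sum_congr rfl fun i _ => ?_
        have h3 : ∀ c, a i c * x i ^ 2 / (R i : ℝ) = a i c * (x i ^ 2 / (R i : ℝ)) := fun c => by ring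
        simp_rw [h3]
        rw [← Finset.sum_mul, hR i]
        have := (hRp i).ne'
        field_simp
    _ = x ⬝ᵥ x := rfl

theorem trace_M (ha : ∀ i j, a i j = 0 ∨ a i j = 1) :
    (NN a R C * (NN a R C)ᵀ).trace = ∑ i, ∑ c, xx a R C i c := by
  unfold Matrix.trace
  refine Finset.sum_congr rfl fun i _ => ?_
  rw [diag_apply, mul_apply]
  refine Finset.sum_congr rfl fun c _ => ?_
  rw [transpose_apply, ← pow_two, NN_sq ha]

theorem sum_sq_le_sq_sum' (f : ι → ℝ) (hf : ∀ i, 0 ≤ f i) : ∑ i, f i ^ 2 ≤ (∑ i, f i) ^ 2 := by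
  rw [pow_two (∑ i, f i), Finset.sum_mul]
  refine Finset.sum_le_sum fun i _ => ?_
  rw [pow_two]
  exact mul_le_mul_of_nonneg_left (Finset.single_le_sum (fun j _ => hf j) (Finset.mem_univ i)) (hf i)

theorem trace_MM (ha : ∀ i j, a i j = 0 ∨ a i j = 1) :
    ∑ i, (∑ c, xx a R C i c) ^ 2 + ∑ c, (∑ i, xx a R C i c) ^ 2 - ∑ i, ∑ c, xx a R C i c ^ 2 ≤
      ((NN a R C * (NN a R C)ᵀ) * (NN a R C * (NN a R C)ᵀ)).trace := by
  set M := NN a R C * (NN a R C)ᵀ with hM
  have hMij : ∀ i j, M i j = ∑ c, NN a R C i c * NN a R C j c := by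
    intro i j
    rw [hM, mul_apply]
    rfl
  have hsym : ∀ i j, M j i = M i j := by
    intro i j
    rw [hMij, hMij]
    exact Finset.sum_congr rfl fun c _ => mul_comm _ _
  have htr : (M * M).trace = ∑ i, ∑ j, M i j ^ 2 := by
    unfold Matrix.trace
    refine Finset.sum_congr rfl fun i _ => ?_
    rw [diag_apply, mul_apply]
    refine Finset.sum_congr rfl fun j _ => ?_
    rw [hsym i j, pow_two]
  have hge : ∀ i j, ∑ c, xx a R C i c * xx a R C j c ≤ M i j ^ 2 := by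
    intro i j
    rw [hMij]
    refine le_trans (le_of_eq ?_) (sum_sq_le_sq_sum' _ fun c =>
      mul_nonneg (NN_nonneg ha i c) (NN_nonneg ha j c))
    refine Finset.sum_congr rfl fun c _ => ?_
    rw [mul_pow, NN_sq ha, NN_sq ha]
  have hdiag : ∀ i, M i i = ∑ c, xx a R C i c := by
    intro i
    rw [hMij]
    refine Finset.sum_congr rfl fun c _ => ?_
    rw [← pow_two, NN_sq ha]
  have hrow : ∀ i, (∑ c, xx a R C i c) ^ 2 + (∑ c, xx a R C i c * (∑ j, xx a R C j c))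
      - ∑ c, xx a R C i c ^ 2 ≤ ∑ j, M i j ^ 2 := by
    intro i
    rw [← Finset.add_sum_erase Finset.univ (fun j => M i j ^ 2) (Finset.mem_univ i), hdiag i]
    have h1 : ∑ j ∈ Finset.univ.erase i, ∑ c, xx a R C i c * xx a R C j c ≤
        ∑ j ∈ Finset.univ.erase i, M i j ^ 2 := Finset.sum_le_sum fun j _ => hge i j
    have h2 : ∑ j ∈ Finset.univ.erase i, ∑ c, xx a R C i c * xx a R C j c =
        (∑ c, xx a R C i c * (∑ j, xx a R C j c)) - ∑ c, xx a R C i c ^ 2 := by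
      have h3 := Finset.add_sum_erase Finset.univ
        (fun j => ∑ c, xx a R C i c * xx a R C j c) (Finset.mem_univ i)
      have h4 : ∑ j, ∑ c, xx a R C i c * xx a R C j c =
          ∑ c, xx a R C i c * (∑ j, xx a R C j c) := by
        rw [Finset.sum_comm]
        refine Finset.sum_congr rfl fun c _ => ?_
        rw [Finset.mul_sum]
      have h5 : ∑ c, xx a R C i c * xx a R C i c = ∑ c, xx a R C i c ^ 2 :=
        Finset.sum_congr rfl fun c _ => (pow_two _).symm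
      rw [h4, h5] at h3
      linarith
    linarith
  rw [htr]
  refine le_trans (le_of_eq ?_) (Finset.sum_le_sum fun i _ => hrow i)
  rw [Finset.sum_sub_distrib, Finset.sum_add_distrib]
  congr 2
  rw [Finset.sum_comm]
  refine Finset.sum_congr rfl fun c _ => ?_
  rw [← Finset.sum_mul, pow_two]

end

theorem log_eq_al {r : ℕ} (hr : 2 ≤ r) :
    Real.log (r : ℝ) = Real.log 3 + 3 / 14 * w + 9 / 50 * ((r : ℝ) - 3) - g * (T r ^ 2 - 1 / 9)
      - r * al r := by
  have hr0 : (0 : ℝ) < (r : ℝ) := by exact_mod_cast (by omega : 0 < r)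
  have h1 : (r : ℝ) * al r =
      3 / 14 * w + 9 / 50 * ((r : ℝ) - 3) - Real.log ((r : ℝ) / 3) - g * (T r ^ 2 - 1 / 9) := by
    unfold al
    field_simp
  rw [h1, Real.log_div hr0.ne' (by norm_num)]
  ring

theorem log_24 : Real.log 24 = 3 * Real.log 2 + Real.log 3 := by
  have : (24 : ℝ) = 2 ^ 3 * 3 := by norm_num
  rw [this, Real.log_mul (by norm_num) (by norm_num), Real.log_pow]
  norm_num

theorem log_bound (a : Matrix ι ι ℝ) (R C : ι → ℕ) (ha : ∀ i j, a i j = 0 ∨ a i j = 1)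
    (hR : ∀ i, ∑ j, a i j = R i) (hC : ∀ j, ∑ i, a i j = C j) (hR2 : ∀ i, 2 ≤ R i)
    (hC2 : ∀ i, 2 ≤ C i) (hdet : a.det ≠ 0) :
    Real.log |a.det| ≤ (Fintype.card ι : ℝ) / 7 * Real.log 24
      + 9 / 50 * ((∑ i, ∑ j, a i j) - 3 * (Fintype.card ι : ℝ)) := by
  have hg0 : 0 < g := by linarith [g_lb]
  obtain ⟨hpos, hlog⟩ := det_M (a := a) hR2 hC2 hdet
  have hpsd : (NN a R C * (NN a R C)ᵀ).PosSemidef := by
    have := Matrix.posSemidef_self_mul_conjTranspose (NN a R C)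
    rwa [Matrix.conjTranspose_eq_transpose_of_trivial] at this
  have hmain := log_det_le hpsd (M_le_one ha hR hC hR2 hC2) hpos
  rw [hlog, trace_M ha] at hmain
  have htt := trace_MM (R := R) (C := C) ha
  set τ := ((NN a R C * (NN a R C)ᵀ) * (NN a R C * (NN a R C)ᵀ)).trace with hτ
  set x := xx a R C with hx
  -- replace logs of degrees
  have hlR : ∑ i, Real.log (R i : ℝ) = ∑ i, (Real.log 3 + 3 / 14 * w
      + 9 / 50 * ((R i : ℝ) - 3) - g * (T (R i) ^ 2 - 1 / 9) - R i * al (R i)) :=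
    Finset.sum_congr rfl fun i _ => log_eq_al (hR2 i)
  have hlC : ∑ i, Real.log (C i : ℝ) = ∑ i, (Real.log 3 + 3 / 14 * w
      + 9 / 50 * ((C i : ℝ) - 3) - g * (T (C i) ^ 2 - 1 / 9) - C i * al (C i)) :=
    Finset.sum_congr rfl fun i _ => log_eq_al (hC2 i)
  -- tangent lines
  have htR : ∑ i, (2 * T (R i) * (∑ c, x i c) - T (R i) ^ 2) ≤ ∑ i, (∑ c, x i c) ^ 2 :=
    Finset.sum_le_sum fun i _ => by nlinarith [sq_nonneg ((∑ c, x i c) - T (R i))]
  have htC : ∑ c, (2 * T (C c) * (∑ i, x i c) - T (C c) ^ 2) ≤ ∑ c, (∑ i, x i c) ^ 2 :=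
    Finset.sum_le_sum fun c _ => by nlinarith [sq_nonneg ((∑ i, x i c) - T (C c))]
  -- the edge sum
  have hedge : ∀ i c, (9 / 2 + 4 * g / 9) * x i c + g * x i c ^ 2 - 2 * g * (T (R i) * x i c)
      - 2 * g * (T (C c) * x i c) - a i c * al (R i) - a i c * al (C c) ≤ 0 := by
    intro i c
    rcases ha i c with h | h
    · have : x i c = 0 := by rw [hx]; unfold xx; rw [h]; simp
      rw [this, h]; simp
    · have hxe : x i c = 1 / ((R i : ℝ) * C c) := by rw [hx]; unfold xx; rw [h]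
      have he := edge_ineq (hR2 i) (hC2 c)
      unfold lhs at he
      rw [hxe, h]
      have e1 : (9 / 2 + 4 * g / 9 - 2 * g * (T (R i) + T (C c))) / ((R i : ℝ) * C c)
          + g / ((R i : ℝ) * C c) ^ 2 =
          (9 / 2 + 4 * g / 9) * (1 / ((R i : ℝ) * C c)) + g * (1 / ((R i : ℝ) * C c)) ^ 2
          - 2 * g * (T (R i) * (1 / ((R i : ℝ) * C c)))
          - 2 * g * (T (C c) * (1 / ((R i : ℝ) * C c))) := by
        rw [one_div, inv_pow]
        ring
      rw [e1] at he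
      linarith
  have hedges : ∑ i, ∑ c, ((9 / 2 + 4 * g / 9) * x i c + g * x i c ^ 2
      - 2 * g * (T (R i) * x i c) - 2 * g * (T (C c) * x i c) - a i c * al (R i)
      - a i c * al (C c)) ≤ 0 :=
    Finset.sum_nonpos fun i _ => Finset.sum_nonpos fun c _ => hedge i c
  have hsplit : ∑ i, ∑ c, ((9 / 2 + 4 * g / 9) * x i c + g * x i c ^ 2
      - 2 * g * (T (R i) * x i c) - 2 * g * (T (C c) * x i c) - a i c * al (R i)
      - a i c * al (C c)) =
      (9 / 2 + 4 * g / 9) * (∑ i, ∑ c, x i c) + g * (∑ i, ∑ c, x i c ^ 2)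
      - 2 * g * (∑ i, T (R i) * ∑ c, x i c) - 2 * g * (∑ c, T (C c) * ∑ i, x i c)
      - ∑ i, R i * al (R i) - ∑ c, C c * al (C c) := by
    have s1 : ∑ i, ∑ c, (2 * g * (T (R i) * x i c)) = 2 * g * (∑ i, T (R i) * ∑ c, x i c) := by
      rw [Finset.mul_sum]
      refine Finset.sum_congr rfl fun i _ => ?_
      rw [Finset.mul_sum, Finset.mul_sum]
    have s2 : ∑ i, ∑ c, (2 * g * (T (C c) * x i c)) = 2 * g * (∑ c, T (C c) * ∑ i, x i c) := by
      rw [Finset.sum_comm, Finset.mul_sum]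
      refine Finset.sum_congr rfl fun c _ => ?_
      rw [Finset.mul_sum, Finset.mul_sum]
    have s3 : ∑ i, ∑ c, a i c * al (R i) = ∑ i, R i * al (R i) :=
      Finset.sum_congr rfl fun i _ => by rw [← Finset.sum_mul, hR i]
    have s4 : ∑ i, ∑ c, a i c * al (C c) = ∑ c, C c * al (C c) := by
      rw [Finset.sum_comm]
      exact Finset.sum_congr rfl fun c _ => by rw [← Finset.sum_mul, hC c]
    simp only [Finset.sum_sub_distrib, Finset.sum_add_distrib]
    rw [s1, s2, s3, s4]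
    simp only [← Finset.mul_sum]
  rw [hsplit] at hedges
  -- expand the remaining sums
  have hcardR : ∑ i, (Real.log 3 + 3 / 14 * w + 9 / 50 * ((R i : ℝ) - 3)
      - g * (T (R i) ^ 2 - 1 / 9) - R i * al (R i)) =
      (Fintype.card ι : ℝ) * (Real.log 3 + 3 / 14 * w + g / 9)
      + 9 / 50 * ((∑ i, ∑ j, a i j) - 3 * (Fintype.card ι : ℝ))
      - g * (∑ i, T (R i) ^ 2) - ∑ i, R i * al (R i) := by
    have s1 : ∑ i, ∑ j, a i j = ∑ i, (R i : ℝ) := Finset.sum_congr rfl fun i _ => hR i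
    rw [s1]
    simp only [Finset.sum_sub_distrib, Finset.sum_add_distrib, ← Finset.mul_sum,
      Finset.sum_const, Finset.card_univ, nsmul_eq_mul]
    ring
  have hcardC : ∑ i, (Real.log 3 + 3 / 14 * w + 9 / 50 * ((C i : ℝ) - 3)
      - g * (T (C i) ^ 2 - 1 / 9) - C i * al (C i)) =
      (Fintype.card ι : ℝ) * (Real.log 3 + 3 / 14 * w + g / 9)
      + 9 / 50 * ((∑ i, ∑ j, a i j) - 3 * (Fintype.card ι : ℝ))
      - g * (∑ i, T (C i) ^ 2) - ∑ i, C i * al (C i) := by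
    have s1 : ∑ i, ∑ j, a i j = ∑ i, (C i : ℝ) := by
      calc ∑ i, ∑ j, a i j = ∑ j, ∑ i, a i j := Finset.sum_comm
        _ = ∑ i, (C i : ℝ) := Finset.sum_congr rfl fun i _ => hC i
    rw [s1]
    simp only [Finset.sum_sub_distrib, Finset.sum_add_distrib, ← Finset.mul_sum,
      Finset.sum_const, Finset.card_univ, nsmul_eq_mul]
    ring
  have htR' : 2 * (∑ i, T (R i) * ∑ c, x i c) - ∑ i, T (R i) ^ 2 ≤ ∑ i, (∑ c, x i c) ^ 2 := by
    refine le_trans (le_of_eq ?_) htR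
    rw [Finset.sum_sub_distrib, Finset.mul_sum]
    congr 1
    exact Finset.sum_congr rfl fun i _ => by ring
  have htC' : 2 * (∑ c, T (C c) * ∑ i, x i c) - ∑ c, T (C c) ^ 2 ≤ ∑ c, (∑ i, x i c) ^ 2 := by
    refine le_trans (le_of_eq ?_) htC
    rw [Finset.sum_sub_distrib, Finset.mul_sum]
    congr 1
    exact Finset.sum_congr rfl fun i _ => by ring
  rw [hlR, hlC, hcardR, hcardC] at hmain
  have hconst : (Fintype.card ι : ℝ) * (2 * (Real.log 3 + 3 / 14 * w + g / 9)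
      + (-w - 1 - 4 * g / 81)) = (Fintype.card ι : ℝ) * (2 / 7 * Real.log 24) := by
    congr 1
    have := w_eq
    rw [log_24]
    unfold g
    linarith
  have k1 := mul_le_mul_of_nonneg_left htR' hg0.le
  have k2 := mul_le_mul_of_nonneg_left htC' hg0.le
  have k3 := mul_le_mul_of_nonneg_left htt hg0.le
  nlinarith [k1, k2, k3, hmain, hedges, hconst]

end Pool.Agent.H972R4.Fano
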