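import Pool.Agent.H972R4.Fano.LogQuad

/-!
# The edge inequality
-/

set_option autoImplicit false

namespace Pool.Agent.H972R4.Fano

/-- tangent points, depending on the degree -/
noncomputable def T (r : ℕ) : ℝ := if r = 2 then 2 / 5 else if r = 3 then 1 / 3 else 3 / 10

/-- the share of a vertex of degree `r` in each of its edges -/
noncomputable def al (r : ℕ) : ℝ :=
  (3 / 14 * w + 9 / 50 * ((r : ℝ) - 3) - Real.log ((r : ℝ) / 3) - g * (T r ^ 2 - 1 / 9)) / r

theorem T_two : T 2 = 2 / 5 := by simp [T]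
theorem T_three : T 3 = 1 / 3 := by simp [T]
theorem T_big {r : ℕ} (hr : 4 ≤ r) : T r = 3 / 10 := by
  unfold T
  rw [if_neg (by omega), if_neg (by omega)]

theorem al_two : 0.1932 ≤ al 2 := by
  unfold al
  rw [T_two]
  have h1 : Real.log (((2 : ℕ) : ℝ) / 3) = Real.log 2 - Real.log 3 := by
    rw [Real.log_div (by norm_num) (by norm_num)]
    norm_num
  rw [h1]
  have h2 := Real.log_three_gt_d9
  have h3 := Real.log_two_lt_d9
  have h4 := w_lb
  have h5 := g_ub
  push_cast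
  norm_num at h2 h3 h4 h5 ⊢
  linarith

theorem al_three : al 3 = w / 14 := by
  unfold al
  rw [T_three]
  have h1 : Real.log (((3 : ℕ) : ℝ) / 3) = 0 := by
    norm_num
  rw [h1]
  push_cast
  ring

theorem al_four : 0.0710 ≤ al 4 := by
  unfold al
  rw [T_big (le_refl 4)]
  have h1 : Real.log (((4 : ℕ) : ℝ) / 3) = 2 * Real.log 2 - Real.log 3 := by
    rw [Real.log_div (by norm_num) (by norm_num)]
    have : ((4 : ℕ) : ℝ) = 2 ^ 2 := by norm_num
    rw [this, Real.log_pow]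
    norm_num
  rw [h1]
  have h2 := Real.log_three_gt_d9
  have h3 := Real.log_two_lt_d9
  have h4 := w_lb
  have h5 := g_lb
  push_cast
  norm_num at h2 h3 h4 h5 ⊢
  linarith

theorem log_le_shift {x : ℝ} (hx : 0 < x) : Real.log (x / 3) ≤ Real.log 2 + (x / 6 - 1) := by
  have h1 : x / 3 = 2 * (x / 6) := by ring
  rw [h1, Real.log_mul (by norm_num) (by positivity)]
  have := Real.log_le_sub_one_of_pos (show 0 < x / 6 by positivity)
  linarith

theorem al_five : 0.0450 ≤ al 5 := by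
  unfold al
  rw [T_big (by norm_num)]
  have h1 := log_le_shift (show (0 : ℝ) < ((5 : ℕ) : ℝ) by norm_num)
  have h3 := Real.log_two_lt_d9
  have h4 := w_lb
  have h5 := g_lb
  rw [le_div_iff₀ (by norm_num)]
  push_cast at h1 ⊢
  norm_num at h1 h3 h4 h5 ⊢
  linarith

theorem al_big {r : ℕ} (hr : 6 ≤ r) : 0.2387 / (r : ℝ) ≤ al r := by
  unfold al
  rw [T_big (by omega)]
  have hr' : (6 : ℝ) ≤ (r : ℝ) := by exact_mod_cast hr
  have h1 := log_le_shift (show (0 : ℝ) < (r : ℝ) by linarith)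
  have h3 := Real.log_two_lt_d9
  have h4 := w_lb
  have h5 := g_lb
  refine div_le_div_of_nonneg_right ?_ (by linarith)
  norm_num at h1 h3 h4 h5 ⊢
  linarith

theorem al_pos {r : ℕ} (hr : 4 ≤ r) : 0 < al r := by
  rcases Nat.lt_or_ge r 5 with h | h
  · have : r = 4 := by omega
    subst this
    linarith [al_four]
  · rcases Nat.lt_or_ge r 6 with h' | h'
    · have : r = 5 := by omega
      subst this
      linarith [al_five]
    · have h1 := al_big h'
      have hr' : (0 : ℝ) < (r : ℝ) := by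
        have : (6 : ℝ) ≤ (r : ℝ) := by exact_mod_cast h'
        linarith
      have : (0 : ℝ) < 0.2387 / (r : ℝ) := by positivity
      linarith

/-- decoupled bound for degrees at least four -/
theorem al_decoupled {r : ℕ} (hr : 4 ≤ r) :
    (9 / 4 - 17 / 45 * g) / (r : ℝ) ^ 2 + (g / 2) / (r : ℝ) ^ 4 ≤ al r := by
  have h4 := g_lb
  have h5 := g_ub
  rcases Nat.lt_or_ge r 5 with h | h
  · have : r = 4 := by omega
    subst this
    have := al_four
    push_cast
    norm_num at h4 h5 this ⊢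
    linarith
  · rcases Nat.lt_or_ge r 6 with h' | h'
    · have : r = 5 := by omega
      subst this
      have := al_five
      push_cast
      norm_num at h4 h5 this ⊢
      linarith
    · have h1 := al_big h'
      have hr6 : (6 : ℝ) ≤ (r : ℝ) := by exact_mod_cast h'
      have hr0 : (0 : ℝ) < (r : ℝ) := by linarith
      refine le_trans ?_ h1
      have e1 : (9 / 4 - 17 / 45 * g) / (r : ℝ) ^ 2 + (g / 2) / (r : ℝ) ^ 4
          = ((9 / 4 - 17 / 45 * g) * (1 / (r : ℝ)) + (g / 2) * (1 / (r : ℝ)) ^ 3) / r := by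
        field_simp
      rw [e1]
      refine div_le_div_of_nonneg_right ?_ hr0.le
      have e2 : 1 / (r : ℝ) ≤ 1 / 6 := one_div_le_one_div_of_le (by norm_num) hr6
      have e3 : 0 < 1 / (r : ℝ) := by positivity
      have e4 : (1 / (r : ℝ)) ^ 3 ≤ (1 / 6) ^ 3 := by gcongr
      have e5 : (9 / 4 - 17 / 45 * g) * (1 / (r : ℝ)) ≤ (9 / 4 - 17 / 45 * g) * (1 / 6) := by
        refine mul_le_mul_of_nonneg_left e2 ?_
        norm_num at h4 h5
        linarith
      have e6 : (g / 2) * (1 / (r : ℝ)) ^ 3 ≤ (g / 2) * (1 / 6) ^ 3 := by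
        refine mul_le_mul_of_nonneg_left e4 ?_
        linarith
      norm_num at h4 h5 e5 e6 ⊢
      linarith

/-- the left-hand side of the edge inequality -/
noncomputable def lhs (r s : ℕ) : ℝ :=
  (9 / 2 + 4 * g / 9 - 2 * g * (T r + T s)) / ((r : ℝ) * s) + g / ((r : ℝ) * s) ^ 2

theorem lhs_comm (r s : ℕ) : lhs r s = lhs s r := by
  unfold lhs
  rw [mul_comm (r : ℝ) (s : ℝ), add_comm (T r) (T s)]

theorem edge_big {r s : ℕ} (hr : 4 ≤ r) (hs : 4 ≤ s) : lhs r s ≤ al r + al s := by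
  have h1 := al_decoupled hr
  have h2 := al_decoupled hs
  refine le_trans ?_ (add_le_add h1 h2)
  unfold lhs
  rw [T_big hr, T_big hs]
  have hr0 : (0 : ℝ) < (r : ℝ) := by
    have : (4 : ℝ) ≤ (r : ℝ) := by exact_mod_cast hr
    linarith
  have hs0 : (0 : ℝ) < (s : ℝ) := by
    have : (4 : ℝ) ≤ (s : ℝ) := by exact_mod_cast hs
    linarith
  have h4 := g_lb
  have h5 := g_ub
  set a : ℝ := 1 / (r : ℝ) with ha
  set b : ℝ := 1 / (s : ℝ) with hb
  have e1 : (9 / 2 + 4 * g / 9 - 2 * g * (3 / 10 + 3 / 10)) / ((r : ℝ) * s) + g / ((r : ℝ) * s) ^ 2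
      = 2 * (9 / 4 - 17 / 45 * g) * (a * b) + g * (a * b) ^ 2 := by
    rw [ha, hb]; field_simp; ring
  have e2 : (9 / 4 - 17 / 45 * g) / (r : ℝ) ^ 2 + (g / 2) / (r : ℝ) ^ 4 +
      ((9 / 4 - 17 / 45 * g) / (s : ℝ) ^ 2 + (g / 2) / (s : ℝ) ^ 4)
      = (9 / 4 - 17 / 45 * g) * (a ^ 2 + b ^ 2) + g / 2 * (a ^ 4 + b ^ 4) := by
    rw [ha, hb]; field_simp; ring
  rw [e1, e2]
  have hK : 0 ≤ 9 / 4 - 17 / 45 * g := by norm_num at h4 h5; linarith
  have hg : 0 ≤ g := by linarith
  have f1 : 0 ≤ (9 / 4 - 17 / 45 * g) * (a - b) ^ 2 := mul_nonneg hK (sq_nonneg _)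
  have f2 : 0 ≤ g / 2 * (a ^ 2 - b ^ 2) ^ 2 := mul_nonneg (by linarith) (sq_nonneg _)
  nlinarith [f1, f2]

theorem edge_three {s : ℕ} (hs : 4 ≤ s) : lhs 3 s ≤ al 3 + al s := by
  rw [al_three]
  unfold lhs
  rw [T_three, T_big hs]
  have h4 := g_lb
  have h5 := g_ub
  have h6 := w_lb
  rcases Nat.lt_or_ge s 5 with h | h
  · have : s = 4 := by omega
    subst this
    have := al_four
    push_cast
    norm_num at h4 h5 h6 this ⊢
    linarith
  · rcases Nat.lt_or_ge s 6 with h' | h'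
    · have : s = 5 := by omega
      subst this
      have := al_five
      push_cast
      norm_num at h4 h5 h6 this ⊢
      linarith
    · have h1 := al_big h'
      have hs6 : (6 : ℝ) ≤ (s : ℝ) := by exact_mod_cast h'
      have hs0 : (0 : ℝ) < (s : ℝ) := by linarith
      have e2 : 1 / (s : ℝ) ≤ 1 / 6 := one_div_le_one_div_of_le (by norm_num) hs6
      have e3 : 0 < 1 / (s : ℝ) := by positivity
      have e4 : (1 / (s : ℝ)) ^ 2 ≤ (1 / 6) ^ 2 := by gcongr
      have e5 : ((9 / 2 - 37 / 45 * g) / 3 - 0.2387) * (1 / (s : ℝ)) ≤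
          ((9 / 2 - 37 / 45 * g) / 3 - 0.2387) * (1 / 6) := by
        refine mul_le_mul_of_nonneg_left e2 ?_
        norm_num at h4 h5 ⊢
        linarith
      have e6 : g * (1 / (s : ℝ)) ^ 2 ≤ g * (1 / 6) ^ 2 :=
        mul_le_mul_of_nonneg_left e4 (by linarith)
      have e7 : (9 / 2 + 4 * g / 9 - 2 * g * (1 / 3 + 3 / 10)) / (((3 : ℕ) : ℝ) * s) +
          g / (((3 : ℕ) : ℝ) * s) ^ 2
          = (9 / 2 - 37 / 45 * g) * (1 / (s : ℝ)) / 3 + g * (1 / (s : ℝ)) ^ 2 / 9 := by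
        push_cast; field_simp; ring
      rw [e7]
      have h8 : 0.2387 * (1 / (s : ℝ)) ≤ al s := by
        have : 0.2387 * (1 / (s : ℝ)) = 0.2387 / (s : ℝ) := by ring
        rw [this]; exact h1
      norm_num at h4 h5 h6 e5 e6 h8 ⊢
      nlinarith [e5, e6, h8, h4, h5, h6]

theorem edge_two {s : ℕ} (hs : 4 ≤ s) : lhs 2 s ≤ al 2 + al s := by
  unfold lhs
  rw [T_two, T_big hs]
  have h4 := g_lb
  have h5 := g_ub
  have h6 := al_two
  have h8 : 0 < al s := al_pos hs
  rcases Nat.lt_or_ge s 5 with h | h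
  · have : s = 4 := by omega
    subst this
    have := al_four
    push_cast
    norm_num at h4 h5 h6 this ⊢
    linarith
  · have hs5 : (5 : ℝ) ≤ (s : ℝ) := by exact_mod_cast h
    have hs0 : (0 : ℝ) < (s : ℝ) := by linarith
    have e2 : 1 / (s : ℝ) ≤ 1 / 5 := one_div_le_one_div_of_le (by norm_num) hs5
    have e3 : 0 < 1 / (s : ℝ) := by positivity
    have e4 : (1 / (s : ℝ)) ^ 2 ≤ (1 / 5) ^ 2 := by gcongr
    have e5 : (9 / 2 - 43 / 45 * g) * (1 / (s : ℝ)) ≤ (9 / 2 - 43 / 45 * g) * (1 / 5) := by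
      refine mul_le_mul_of_nonneg_left e2 ?_
      norm_num at h4 h5
      linarith
    have e6 : g * (1 / (s : ℝ)) ^ 2 ≤ g * (1 / 5) ^ 2 :=
      mul_le_mul_of_nonneg_left e4 (by linarith)
    have e7 : (9 / 2 + 4 * g / 9 - 2 * g * (2 / 5 + 3 / 10)) / (((2 : ℕ) : ℝ) * s) +
        g / (((2 : ℕ) : ℝ) * s) ^ 2
        = (9 / 2 - 43 / 45 * g) * (1 / (s : ℝ)) / 2 + g * (1 / (s : ℝ)) ^ 2 / 4 := by
      push_cast; field_simp; ring
    rw [e7]
    norm_num at h4 h5 h6 e5 e6 ⊢
    linarith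

theorem edge_two_two : lhs 2 2 ≤ al 2 + al 2 := by
  unfold lhs
  rw [T_two]
  have h4 := g_lb
  have h5 := g_ub
  have h6 := al_two
  push_cast
  norm_num at h4 h5 h6 ⊢
  linarith

theorem edge_two_three : lhs 2 3 ≤ al 2 + al 3 := by
  rw [al_three]
  unfold lhs
  rw [T_two, T_three]
  have h4 := g_lb
  have h5 := g_ub
  have h6 := al_two
  have h7 := w_lb
  push_cast
  norm_num at h4 h5 h6 h7 ⊢
  linarith

theorem edge_three_three : lhs 3 3 ≤ al 3 + al 3 := by
  rw [al_three]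
  unfold lhs
  rw [T_three]
  unfold g
  push_cast
  apply le_of_eq
  ring

theorem edge_ineq {r s : ℕ} (hr : 2 ≤ r) (hs : 2 ≤ s) : lhs r s ≤ al r + al s := by
  rcases Nat.lt_or_ge r 4 with hr4 | hr4
  · rcases Nat.lt_or_ge s 4 with hs4 | hs4
    · have h1 : r = 2 ∨ r = 3 := by omega
      have h2 : s = 2 ∨ s = 3 := by omega
      rcases h1 with rfl | rfl
      · rcases h2 with rfl | rfl
        · exact edge_two_two
        · exact edge_two_three
      · rcases h2 with rfl | rfl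
        · rw [lhs_comm, add_comm]; exact edge_two_three
        · exact edge_three_three
    · have h1 : r = 2 ∨ r = 3 := by omega
      rcases h1 with rfl | rfl
      · exact edge_two hs4
      · exact edge_three hs4
  · rcases Nat.lt_or_ge s 4 with hs4 | hs4
    · have h2 : s = 2 ∨ s = 3 := by omega
      rcases h2 with rfl | rfl
      · rw [lhs_comm, add_comm]; exact edge_two hr4
      · rw [lhs_comm, add_comm]; exact edge_three hr4
    · exact edge_big hr4 hs4

end Pool.Agent.H972R4.Fano
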