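import Mathlib

/-!
# The quadratic majorant of the logarithm used for the Fano bound
-/

set_option autoImplicit false

namespace Pool.Agent.H972R4.Fano

/-- `w = log (9/2)` -/
noncomputable def w : ℝ := Real.log (9 / 2)

/-- the curvature constant -/
noncomputable def g : ℝ := 81 / 49 * (7 / 2 - w)

theorem w_eq : w = 2 * Real.log 3 - Real.log 2 := by
  unfold w
  rw [Real.log_div (by norm_num) (by norm_num)]
  have : (9 : ℝ) = 3 ^ 2 := by norm_num
  rw [this, Real.log_pow]
  norm_num

theorem w_lb : 1.50407 < w := by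
  rw [w_eq]
  have h1 := Real.log_three_gt_d9
  have h2 := Real.log_two_lt_d9
  norm_num at h1 h2 ⊢
  linarith

theorem w_ub : w < 1.50408 := by
  rw [w_eq]
  have h1 := Real.log_three_lt_d9
  have h2 := Real.log_two_gt_d9
  norm_num at h1 h2 ⊢
  linarith

theorem g_lb : 3.2993 < g := by
  unfold g
  have := w_ub
  norm_num at this ⊢
  linarith

theorem g_ub : g < 3.2994 := by
  unfold g
  have := w_lb
  norm_num at this ⊢
  linarith

/-- the difference between the quadratic and the logarithm -/
noncomputable def hh (x : ℝ) : ℝ := -w + 9 / 2 * (x - 2 / 9) - g * (x - 2 / 9) ^ 2 - Real.log x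

theorem hh_one : hh 1 = 0 := by
  unfold hh g
  rw [Real.log_one]
  ring

theorem hh_two_ninths : hh (2 / 9) = 0 := by
  unfold hh w
  have : (2 / 9 : ℝ) = (9 / 2)⁻¹ := by norm_num
  rw [this, Real.log_inv]
  ring

theorem hasDerivAt_hh {x : ℝ} (hx : 0 < x) :
    HasDerivAt hh ((x - 2 / 9) * (9 / 2 - 2 * g * x) / x) x := by
  have h1 : HasDerivAt (fun x : ℝ => x - 2 / 9) 1 x := (hasDerivAt_id x).sub_const _
  have h2 : HasDerivAt (fun x : ℝ => -w + 9 / 2 * (x - 2 / 9)) (9 / 2 * 1) x :=
    (h1.const_mul (9 / 2)).const_add _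
  have h3 : HasDerivAt (fun x : ℝ => g * (x - 2 / 9) ^ 2) (g * (2 * (x - 2 / 9) ^ 1 * 1)) x := by
    have := (h1.pow 2).const_mul g
    simpa using this
  have h4 := (h2.sub h3).sub (Real.hasDerivAt_log hx.ne')
  refine h4.congr_deriv ?_
  field_simp
  ring

theorem hh_nonneg {x : ℝ} (hx : 0 < x) (hx1 : x ≤ 1) : 0 ≤ hh x := by
  have hg := g_lb
  have hg' := g_ub
  have hgpos : 0 < g := by linarith
  have hcont : ∀ a b : ℝ, 0 < a → ContinuousOn hh (Set.Icc a b) := fun a b ha y hy =>
    (hasDerivAt_hh (lt_of_lt_of_le ha hy.1)).continuousAt.continuousWithinAt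
  rcases le_total x (2 / 9) with h | h
  · have : AntitoneOn hh (Set.Icc x (2 / 9)) := by
      refine antitoneOn_of_deriv_nonpos (convex_Icc _ _) (hcont _ _ hx) ?_ ?_
      · intro y hy
        rw [interior_Icc] at hy
        exact (hasDerivAt_hh (lt_trans hx hy.1)).differentiableAt.differentiableWithinAt
      · intro y hy
        rw [interior_Icc] at hy
        have hy0 : 0 < y := lt_trans hx hy.1
        rw [(hasDerivAt_hh hy0).deriv]
        have h1 : y - 2 / 9 ≤ 0 := by linarith [hy.2]
        have h2 : 0 ≤ 9 / 2 - 2 * g * y := by nlinarith [hy.2]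
        exact div_nonpos_of_nonpos_of_nonneg (mul_nonpos_of_nonpos_of_nonneg h1 h2) hy0.le
    have := this (Set.left_mem_Icc.mpr h) (Set.right_mem_Icc.mpr h) h
    rw [hh_two_ninths] at this
    exact this
  · rcases le_total (2 * g * x) (9 / 2) with h' | h'
    · have : MonotoneOn hh (Set.Icc (2 / 9) x) := by
        refine monotoneOn_of_deriv_nonneg (convex_Icc _ _) (hcont _ _ (by norm_num)) ?_ ?_
        · intro y hy
          rw [interior_Icc] at hy
          exact (hasDerivAt_hh (lt_trans (by norm_num) hy.1)).differentiableAt.differentiableWithinAt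
        · intro y hy
          rw [interior_Icc] at hy
          have hy0 : 0 < y := lt_trans (by norm_num) hy.1
          rw [(hasDerivAt_hh hy0).deriv]
          have h1 : 0 ≤ y - 2 / 9 := by linarith [hy.1]
          have h2 : 0 ≤ 9 / 2 - 2 * g * y := by nlinarith [hy.2]
          exact div_nonneg (mul_nonneg h1 h2) hy0.le
      have := this (Set.left_mem_Icc.mpr h) (Set.right_mem_Icc.mpr h) h
      rw [hh_two_ninths] at this
      exact this
    · have : AntitoneOn hh (Set.Icc x 1) := by
        refine antitoneOn_of_deriv_nonpos (convex_Icc _ _) (hcont _ _ hx) ?_ ?_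
        · intro y hy
          rw [interior_Icc] at hy
          exact (hasDerivAt_hh (lt_trans hx hy.1)).differentiableAt.differentiableWithinAt
        · intro y hy
          rw [interior_Icc] at hy
          have hy0 : 0 < y := lt_trans hx hy.1
          rw [(hasDerivAt_hh hy0).deriv]
          have h1 : 0 ≤ y - 2 / 9 := by linarith [hy.1]
          have h2 : 9 / 2 - 2 * g * y ≤ 0 := by nlinarith [hy.1]
          exact div_nonpos_of_nonpos_of_nonneg (mul_nonpos_of_nonneg_of_nonpos h1 h2) hy0.le
      have := this (Set.left_mem_Icc.mpr hx1) (Set.right_mem_Icc.mpr hx1) hx1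
      rw [hh_one] at this
      exact this

theorem log_le_quad {x : ℝ} (hx : 0 < x) (hx1 : x ≤ 1) :
    Real.log x ≤ -w + 9 / 2 * (x - 2 / 9) - g * (x - 2 / 9) ^ 2 := by
  have := hh_nonneg hx hx1
  unfold hh at this
  linarith

end Pool.Agent.H972R4.Fano
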