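import Pool.Agent.H972R4.Fano.Bound

/-!
# Every 0-1 matrix: |det A| ≤ 24^(n/7) exp(9/50 (m - 3n))
-/

set_option autoImplicit false

open Matrix Finset

namespace Pool.Agent.H972R4.Fano

/-- number of nonzero entries -/
def cnt {n : ℕ} (A : Matrix (Fin n) (Fin n) ℤ) : ℕ :=
  (Finset.univ.filter (fun p : Fin n × Fin n => A p.1 p.2 ≠ 0)).card

theorem cnt_real {n : ℕ} (A : Matrix (Fin n) (Fin n) ℤ) (hA : ∀ i j, A i j = 0 ∨ A i j = 1) :
    (cnt A : ℝ) = ∑ i, ∑ j, (A i j : ℝ) := by
  unfold cnt
  rw [Finset.card_filter, ← Finset.sum_product' (s := Finset.univ) (t := Finset.univ)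
    (f := fun i j => (A i j : ℝ))]
  push_cast
  refine Finset.sum_congr rfl fun p _ => ?_
  rcases hA p.1 p.2 with h | h <;> rw [h] <;> simp

theorem row_real {n : ℕ} (A : Matrix (Fin n) (Fin n) ℤ) (hA : ∀ i j, A i j = 0 ∨ A i j = 1)
    (i : Fin n) :
    ∑ j, (A i j : ℝ) = ((Finset.univ.filter (fun j => A i j ≠ 0)).card : ℝ) := by
  rw [Finset.card_filter]
  push_cast
  refine Finset.sum_congr rfl fun j _ => ?_
  rcases hA i j with h | h <;> rw [h] <;> simp

theorem col_real {n : ℕ} (A : Matrix (Fin n) (Fin n) ℤ) (hA : ∀ i j, A i j = 0 ∨ A i j = 1)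
    (j : Fin n) :
    ∑ i, (A i j : ℝ) = ((Finset.univ.filter (fun i => A i j ≠ 0)).card : ℝ) := by
  rw [Finset.card_filter]
  push_cast
  refine Finset.sum_congr rfl fun i _ => ?_
  rcases hA i j with h | h <;> rw [h] <;> simp

/-- the bound -/
noncomputable def F (n m : ℕ) : ℝ :=
  Real.exp ((n : ℝ) / 7 * Real.log 24 + 9 / 50 * ((m : ℝ) - 3 * (n : ℝ)))

theorem F_step {n m m' : ℕ} (h : m' + 1 ≤ m) : F n m' ≤ F (n + 1) m := by
  unfold F
  refine Real.exp_le_exp.mpr ?_
  have h1 : (m' : ℝ) + 1 ≤ m := by exact_mod_cast h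
  have h2 := Real.log_two_gt_d9
  have h3 := Real.log_three_gt_d9
  rw [log_24]
  push_cast
  norm_num at h2 h3
  linarith

theorem cnt_sub {n : ℕ} (A : Matrix (Fin (n + 1)) (Fin (n + 1)) ℤ) (i c : Fin (n + 1))
    (h : A i c ≠ 0) : cnt (A.submatrix i.succAbove c.succAbove) + 1 ≤ cnt A := by
  unfold cnt
  set S := Finset.univ.filter (fun p : Fin n × Fin n =>
    (A.submatrix i.succAbove c.succAbove) p.1 p.2 ≠ 0) with hS
  let e : Fin n × Fin n ↪ Fin (n + 1) × Fin (n + 1) :=
    ⟨fun p => (i.succAbove p.1, c.succAbove p.2), fun p q hpq => by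
      have h1 := congrArg Prod.fst hpq
      have h2 := congrArg Prod.snd hpq
      exact Prod.ext (Fin.succAbove_right_injective h1) (Fin.succAbove_right_injective h2)⟩
  have hnot : (i, c) ∉ S.map e := by
    intro hmem
    obtain ⟨p, _, hp⟩ := Finset.mem_map.mp hmem
    have h1 := congrArg Prod.fst hp
    exact Fin.succAbove_ne i p.1 h1
  have hsub : insert (i, c) (S.map e) ⊆
      Finset.univ.filter (fun p : Fin (n + 1) × Fin (n + 1) => A p.1 p.2 ≠ 0) := by
    intro q hq
    rcases Finset.mem_insert.mp hq with rfl | hq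
    · simpa using h
    · obtain ⟨p, hp, rfl⟩ := Finset.mem_map.mp hq
      rw [hS, Finset.mem_filter] at hp
      rw [Finset.mem_filter]
      exact ⟨Finset.mem_univ _, hp.2⟩
  have := Finset.card_le_card hsub
  rw [Finset.card_insert_of_notMem hnot, Finset.card_map] at this
  exact this

theorem row_case {n : ℕ}
    (IH : ∀ B : Matrix (Fin n) (Fin n) ℤ, (∀ i j, B i j = 0 ∨ B i j = 1) →
      |(B.det : ℝ)| ≤ F n (cnt B))
    (A : Matrix (Fin (n + 1)) (Fin (n + 1)) ℤ) (hA : ∀ i j, A i j = 0 ∨ A i j = 1)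
    (hdet : A.det ≠ 0) (i : Fin (n + 1)) (c : Fin (n + 1)) (hrow : ∀ j, j ≠ c → A i j = 0) :
    |(A.det : ℝ)| ≤ F (n + 1) (cnt A) := by
  have hexp : A.det = (-1) ^ (i + c : ℕ) * A i c * (A.submatrix i.succAbove c.succAbove).det := by
    rw [Matrix.det_succ_row A i]
    refine Finset.sum_eq_single c ?_ ?_
    · intro j _ hj
      rw [hrow j hj]; simp
    · intro h; exact absurd (Finset.mem_univ _) h
  have hic : A i c ≠ 0 := by
    intro h0
    apply hdet
    rw [hexp, h0]; simp
  have hic1 : A i c = 1 := (hA i c).resolve_left hic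
  have h1 := IH (A.submatrix i.succAbove c.succAbove) (fun p q => hA _ _)
  have h2 : |(A.det : ℝ)| = |((A.submatrix i.succAbove c.succAbove).det : ℝ)| := by
    rw [hexp, hic1]
    push_cast
    rw [abs_mul, abs_mul, abs_pow]
    simp
  rw [h2]
  exact h1.trans (F_step (cnt_sub A i c hic))

theorem cnt_transpose {n : ℕ} (A : Matrix (Fin n) (Fin n) ℤ) : cnt Aᵀ = cnt A := by
  unfold cnt
  refine Finset.card_bij (fun p _ => (p.2, p.1)) ?_ ?_ ?_
  · intro p hp
    rw [Finset.mem_filter] at hp ⊢
    exact ⟨Finset.mem_univ _, hp.2⟩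
  · intro p _ q _ h
    have h1 := congrArg Prod.fst h
    have h2 := congrArg Prod.snd h
    exact Prod.ext h2 h1
  · intro q hq
    refine ⟨(q.2, q.1), ?_, rfl⟩
    rw [Finset.mem_filter] at hq ⊢
    exact ⟨Finset.mem_univ _, hq.2⟩

/-- a row with at most one nonzero entry -/
theorem few {n : ℕ} (f : Fin (n + 1) → ℤ) (h : (Finset.univ.filter (fun j => f j ≠ 0)).card < 2) :
    ∃ c, ∀ j, j ≠ c → f j = 0 := by
  by_cases hex : ∃ c, f c ≠ 0
  · obtain ⟨c, hc⟩ := hex
    refine ⟨c, fun j hj => ?_⟩
    by_contra hne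
    have hsub : ({j, c} : Finset (Fin (n + 1))) ⊆ Finset.univ.filter (fun j => f j ≠ 0) := by
      intro x hx
      rcases Finset.mem_insert.mp hx with rfl | hx
      · simpa using hne
      · rw [Finset.mem_singleton] at hx
        subst hx
        simpa using hc
    have := Finset.card_le_card hsub
    rw [Finset.card_pair hj] at this
    omega
  · push Not at hex
    exact ⟨0, fun j _ => hex j⟩

theorem main (n : ℕ) : ∀ A : Matrix (Fin n) (Fin n) ℤ, (∀ i j, A i j = 0 ∨ A i j = 1) →
    |(A.det : ℝ)| ≤ F n (cnt A) := by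
  induction n with
  | zero =>
    intro A _
    have h1 : A.det = 1 := Matrix.det_fin_zero
    have h2 : cnt A = 0 := by
      unfold cnt
      rw [Finset.card_eq_zero, Finset.filter_eq_empty_iff]
      intro p _
      exact p.1.elim0
    rw [h1, h2]
    unfold F
    simp
  | succ n IH =>
    intro A hA
    by_cases hdet : A.det = 0
    · rw [hdet]
      simp only [Int.cast_zero, abs_zero]
      exact (Real.exp_pos _).le
    · by_cases hr : ∃ i, (Finset.univ.filter (fun j => A i j ≠ 0)).card < 2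
      · obtain ⟨i, hi⟩ := hr
        obtain ⟨c, hc⟩ := few (A i) hi
        exact row_case IH A hA hdet i c hc
      · by_cases hc : ∃ j, (Finset.univ.filter (fun i => A i j ≠ 0)).card < 2
        · obtain ⟨j, hj⟩ := hc
          obtain ⟨c, hc⟩ := few (fun i => A i j) hj
          have h1 := row_case IH Aᵀ (fun i j => hA j i) (by rwa [Matrix.det_transpose]) j c
            (fun i hi => hc i hi)
          rw [Matrix.det_transpose, cnt_transpose] at h1
          exact h1
        · push Not at hr hc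
          set a : Matrix (Fin (n + 1)) (Fin (n + 1)) ℝ := fun i j => (A i j : ℝ) with ha
          have hdeta : a.det = (A.det : ℝ) := by
            have := (Int.castRingHom ℝ).map_det A
            rw [eq_intCast] at this
            rw [this]
            rfl
          have ha01 : ∀ i j, a i j = 0 ∨ a i j = 1 := by
            intro i j
            rcases hA i j with h | h
            · left; rw [ha]; simp [h]
            · right; rw [ha]; simp [h]
          have h2 := log_bound a (fun i => (Finset.univ.filter (fun j => A i j ≠ 0)).card)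
            (fun j => (Finset.univ.filter (fun i => A i j ≠ 0)).card) ha01
            (fun i => row_real A hA i) (fun j => col_real A hA j) hr hc
            (by rw [hdeta]; exact_mod_cast hdet)
          rw [hdeta] at h2
          have hpos : 0 < |(A.det : ℝ)| := abs_pos.mpr (by exact_mod_cast hdet)
          have h3 : (∑ i, ∑ j, a i j) = (cnt A : ℝ) := (cnt_real A hA).symm
          rw [h3, Fintype.card_fin] at h2
          unfold F
          rw [← Real.log_le_iff_le_exp hpos]
          exact h2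

theorem fano_bound (n : ℕ) (A : Matrix (Fin n) (Fin n) ℤ) (hA : ∀ i j, A i j = 0 ∨ A i j = 1)
    (hc : (Finset.univ.filter (fun p : Fin n × Fin n => A p.1 p.2 ≠ 0)).card ≤ 3 * n) :
    ((A.det : ℤ) : ℝ) ≤ (24 : ℝ) ^ ((n : ℝ) / 7) := by
  have h1 := main n A hA
  have h2 : (cnt A : ℝ) ≤ 3 * (n : ℝ) := by exact_mod_cast hc
  refine (le_abs_self _).trans (h1.trans ?_)
  unfold F
  rw [Real.rpow_def_of_pos (by norm_num)]
  refine Real.exp_le_exp.mpr ?_
  linarith

end Pool.Agent.H972R4.Fano
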